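import Pool.Agent.H11.LD.Targets
import Pool.Agent.H54.Lap.Spec

/-!
MP_c4ad93_co: modules RAY, DEG, ROOT (board ldm_modules).
-/

namespace Pool.Agent.H67.LD

open Finset Classical Pool.Agent.H11.LD Pool.Agent.H9.Lap

theorem pf_DEG : T_DEG := by
  intro V _ G x hU v hv
  have hd1 : (1 : ℝ) ≤ ((nb G v).card : ℝ) := by exact_mod_cast hv
  set d : ℝ := ((nb G v).card : ℝ) with hd
  have hvn : v ∉ nb G v := by
    rw [mem_nb]; exact G.loopless.irrefl v
  let f : V → ℝ := fun w => if w = v then d else if w ∈ nb G v then -1 else 0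
  have hfv : f v = d := by simp [f]
  have hfw : ∀ w ∈ nb G v, f w = -1 := by
    intro w hw
    have h1 : w ≠ v := by rintro rfl; exact hvn hw
    simp [f, h1, hw]
  have hsum : ∑ w, f w ^ 2 = d ^ 2 + d := by
    have h1 : ∀ w, f w ^ 2 = (if w = v then d ^ 2 else 0) + (if w ∈ nb G v then 1 else 0) := by
      intro w
      by_cases e : w = v
      · subst e; simp [f, hvn]
      · by_cases e' : w ∈ nb G v
        · simp [f, e, e']
        · simp [f, e, e']
    rw [Finset.sum_congr rfl fun w _ => h1 w, Finset.sum_add_distrib]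
    simp [hd]
  have hq : d * (d + 1) ^ 2 ≤ qf G f := by
    unfold qf
    have h1 : ∑ v' ∈ insert v (nb G v), ∑ w ∈ nb G v', (f v' - f w) ^ 2 ≤
        ∑ v', ∑ w ∈ nb G v', (f v' - f w) ^ 2 :=
      Finset.sum_le_sum_of_subset_of_nonneg (Finset.subset_univ _)
        fun i _ _ => Finset.sum_nonneg fun j _ => sq_nonneg _
    rw [Finset.sum_insert hvn] at h1
    have h2 : ∑ w ∈ nb G v, (f v - f w) ^ 2 = d * (d + 1) ^ 2 := by
      rw [Finset.sum_congr rfl fun w hw => by rw [hfv, hfw w hw], Finset.sum_const,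
        nsmul_eq_mul]
      ring
    have h3 : d * (d + 1) ^ 2 ≤ ∑ v' ∈ nb G v, ∑ w ∈ nb G v', (f v' - f w) ^ 2 := by
      have h4 : ∀ v' ∈ nb G v, (d + 1) ^ 2 ≤ ∑ w ∈ nb G v', (f v' - f w) ^ 2 := by
        intro v' hv'
        have h5 : v ∈ nb G v' := by
          rw [mem_nb] at hv' ⊢; exact hv'.symm
        have h6 : (f v' - f v) ^ 2 ≤ ∑ w ∈ nb G v', (f v' - f w) ^ 2 :=
          Finset.single_le_sum (f := fun w => (f v' - f w) ^ 2) (fun w _ => sq_nonneg _) h5
        have h7 : (f v' - f v) ^ 2 = (d + 1) ^ 2 := by rw [hfv, hfw v' hv']; ring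
        linarith
      have h7 := Finset.sum_le_sum h4
      rw [Finset.sum_const, nsmul_eq_mul] at h7
      exact h7
    linarith
  have h := hU f
  rw [hsum] at h
  have h8 : d * (d + 1) * (d + 1) ≤ x * (d * (d + 1)) := by nlinarith
  have h9 : 0 < d * (d + 1) := by positivity
  by_contra hcon
  push Not at hcon
  have := mul_lt_mul_of_pos_right hcon h9
  linarith

theorem qf_eq {V : Type} [Fintype V] (G : SimpleGraph V) (f : V → ℝ) :
    f ⬝ᵥ ((G.lapMatrix ℝ).mulVec f) = qf G f := by
  have h := SimpleGraph.lapMatrix_toLinearMap₂' (R := ℝ) G f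
  rw [Matrix.toLinearMap₂'_apply'] at h
  rw [h, qf]
  congr 1
  refine Finset.sum_congr rfl fun v _ => ?_
  rw [nb, Finset.sum_filter]

theorem pf_RAY : T_RAY := by
  intro V _ _ G x hx
  have hA : (G.lapMatrix ℝ).IsHermitian := (SimpleGraph.posSemidef_lapMatrix ℝ G).isHermitian
  constructor
  · intro f
    have hB : (x • (1 : Matrix V V ℝ) - G.lapMatrix ℝ).IsHermitian := by
      refine Matrix.IsHermitian.sub ?_ hA
      rw [Matrix.IsHermitian, Matrix.conjTranspose_smul, Matrix.conjTranspose_one]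
      simp
    have hps : (x • (1 : Matrix V V ℝ) - G.lapMatrix ℝ).PosSemidef := by
      rw [hB.posSemidef_iff_eigenvalues_nonneg]
      intro i
      have h1 := hB.eigenvalues_mem_spectrum_real i
      generalize hB.eigenvalues i = y at h1 ⊢
      have h2 : x - y ∈ spectrum ℝ (G.lapMatrix ℝ) := by
        have h3 : algebraMap ℝ (Matrix V V ℝ) x - G.lapMatrix ℝ =
            x • (1 : Matrix V V ℝ) - G.lapMatrix ℝ := by
          rw [Algebra.algebraMap_eq_smul_one]
        rw [← h3, ← spectrum.singleton_sub_eq] at h1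
        obtain ⟨a, ha, b, hb, hab⟩ := Set.mem_sub.1 h1
        rw [Set.mem_singleton_iff] at ha
        have : x - y = b := by rw [← hab, ha]; ring
        rw [this]; exact hb
      have h4 := hx.2 h2
      show (0 : ℝ) ≤ y
      linarith
    have h5 := hps.dotProduct_mulVec_nonneg f
    rw [star_trivial, Matrix.sub_mulVec, dotProduct_sub, Matrix.smul_mulVec, Matrix.one_mulVec,
      dotProduct_smul, qf_eq] at h5
    have h6 : f ⬝ᵥ f = ∑ v, f v ^ 2 := by
      rw [dotProduct]
      exact Finset.sum_congr rfl fun v _ => by ring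
    rw [h6, smul_eq_mul] at h5
    linarith
  · intro c hc
    obtain ⟨f, ⟨v, hv⟩, hf⟩ := (Pool.Agent.H54.Lap.spe V G x).1 hx.1
    have h1 : qf G f = x * ∑ v, f v ^ 2 := by
      rw [← qf_eq, dotProduct, Finset.mul_sum]
      refine Finset.sum_congr rfl fun v _ => ?_
      have h2 : (G.lapMatrix ℝ).mulVec f v = ∑ w ∈ nb G v, (f v - f w) := by
        have h2 : G.neighborFinset v = nb G v := by
          ext w
          simp [nb]
        rw [SimpleGraph.lapMatrix_mulVec_apply, Finset.sum_sub_distrib, Finset.sum_const,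
          nsmul_eq_mul, ← SimpleGraph.card_neighborFinset_eq_degree, h2]
      rw [h2, hf v]
      ring
    have h3 := hc f
    rw [h1] at h3
    have h4 : 0 < ∑ v, f v ^ 2 := by
      refine Finset.sum_pos' (fun w _ => sq_nonneg _) ⟨v, mem_univ v, ?_⟩
      positivity
    exact le_of_mul_le_mul_right h3 h4

theorem pf_ROOT : T_ROOT := by
  intro g m hg hm
  set lam : ℝ := 4 * Real.cos (Real.pi / (2 * g)) ^ 2 with hlam
  have hgr : (2 : ℝ) ≤ g := by exact_mod_cast hg
  have hmr : (3 : ℝ) ≤ m := by exact_mod_cast hm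
  have hpi := Real.pi_pos
  have hang : 0 < Real.pi / (2 * g) := by positivity
  have hang2 : Real.pi / (2 * g) ≤ Real.pi / 4 := by
    apply div_le_div_of_nonneg_left hpi.le (by norm_num); linarith
  have hcos1 : Real.cos (Real.pi / (2 * g)) < 1 := by
    have := Real.cos_lt_cos_of_nonneg_of_le_pi (x := 0) (y := Real.pi / (2 * g)) le_rfl
      (by linarith) hang
    rwa [Real.cos_zero] at this
  have hcos0 : 0 < Real.cos (Real.pi / (2 * g)) :=
    Real.cos_pos_of_mem_Ioo ⟨by linarith, by linarith⟩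
  have hlam4 : lam < 4 := by rw [hlam]; nlinarith
  have hlam0 : 0 < lam := by rw [hlam]; positivity
  have hcont : ContinuousOn (fun x : ℝ => x * (x - 3) * (x - m)) (Set.Icc (m : ℝ) (m + 1)) := by
    fun_prop
  have hiv := intermediate_value_Ioo (by linarith : (m : ℝ) ≤ m + 1) hcont
  have hmem : lam ∈ Set.Ioo ((m : ℝ) * (m - 3) * (m - m)) ((m + 1) * ((m : ℝ) + 1 - 3) * (m + 1 - m)) := by
    constructor
    · rw [sub_self, mul_zero]; exact hlam0
    · nlinarith
  obtain ⟨μ, ⟨hμ1, hμ2⟩, hμ⟩ := hiv hmem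
  simp only at hμ
  have hμ3 : 3 < μ := by linarith
  have hmono : ∀ y : ℝ, μ < y → lam < y * (y - 3) * (y - m) := by
    intro y hy
    rw [← hμ]
    have h1 : μ * (μ - 3) < y * (y - 3) := by nlinarith
    have h2 : 0 < μ * (μ - 3) := by nlinarith
    have h3 : μ - m < y - m := by linarith
    have h4 : 0 < μ - m := by linarith
    nlinarith [mul_lt_mul'' h1 h3 h2.le h4.le]
  refine ⟨μ, ⟨hμ, ?_⟩, hμ3, hμ1, hμ2, hμ, ?_, hlam4, ?_, ?_⟩
  · intro y hy
    by_contra hcon
    push Not at hcon
    have h1 := hmono y hcon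
    change y * (y - 3) * (y - m) = lam at hy
    linarith
  · intro y hy3 hy
    by_contra hcon
    push Not at hcon
    have hy1 : 0 < y * (y - 3) := by nlinarith
    have hym : (m : ℝ) < y := by
      by_contra h
      push Not at h
      nlinarith
    have h1 : y * (y - 3) < μ * (μ - 3) := by nlinarith
    have h3 : y - m < μ - m := by linarith
    have h4 : 0 < y - m := by linarith
    have h5 := mul_lt_mul'' h1 h3 hy1.le h4.le
    linarith
  · intro h
    subst h
    push_cast at *
    linarith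
  · intro h
    subst h
    push_cast at *
    by_contra hcon
    push Not at hcon
    have h1 : (457 / 100 : ℝ) * (457 / 100 - 3) ≤ μ * (μ - 3) := by nlinarith
    have h2 : (457 / 100 : ℝ) - 4 ≤ μ - 4 := by linarith
    have h3 := mul_le_mul h1 h2 (by norm_num) (by nlinarith)
    linarith

end Pool.Agent.H67.LD
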