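import Pool.Agent.H80.LD.Targets

/-!
MP_47c37b_mp: module EXQ (board ldp_modules): expansion of a quadratic weight.
-/

set_option autoImplicit false

open MeasureTheory Filter Topology

open Pool.Agent.H80.LD

namespace Pool.Agent.H67.LD

section
variable {Ω : Type} [MeasurableSpace Ω] {ν : Measure Ω} {ι : Type} [Fintype ι]

/-- monomials -/
def mon (y : ι → Ω → ℝ) (m : ι → ℕ) (z : Ω) : ℝ := ∏ k, y k z ^ m k

/-- the class of functions -/
def Cl (ν : Measure Ω) (y : ι → Ω → ℝ) (f : Ω → ℝ) : Prop :=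
  ∀ m : ι → ℕ, Integrable (fun z => mon y m z * f z) ν ∧ 0 ≤ ∫ z, mon y m z * f z ∂ν

theorem mon_meas (y : ι → Ω → ℝ) (hy : ∀ k, Measurable (y k)) (m : ι → ℕ) :
    Measurable (mon y m) := by
  unfold mon
  exact Finset.measurable_prod _ fun k _ => (hy k).pow_const _

theorem mon_bd (y : ι → Ω → ℝ) (m : ι → ℕ) (z : Ω) :
    |mon y m z| ≤ Real.exp ((∑ k, (m k : ℝ)) * ∑ k, y k z ^ 2) := by
  unfold mon
  rw [Finset.abs_prod, Finset.sum_mul, Real.exp_sum]
  refine Finset.prod_le_prod (fun k _ => abs_nonneg _) fun k _ => ?_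
  rw [abs_pow, Real.exp_nat_mul]
  refine pow_le_pow_left₀ (abs_nonneg _) ?_ _
  have h1 : y k z ^ 2 ≤ ∑ k, y k z ^ 2 :=
    Finset.single_le_sum (f := fun k => y k z ^ 2) (fun i _ => sq_nonneg _) (Finset.mem_univ k)
  have h2 : |y k z| ≤ y k z ^ 2 + 1 := by
    rw [← sq_abs]
    nlinarith [sq_nonneg (|y k z| - 1), abs_nonneg (y k z)]
  have h3 := Real.add_one_le_exp (∑ k, y k z ^ 2)
  linarith

theorem Cl_add {y : ι → Ω → ℝ} {f g : Ω → ℝ} (hf : Cl ν y f) (hg : Cl ν y g) :
    Cl ν y (fun z => f z + g z) := by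
  intro m
  have e : (fun z => mon y m z * (f z + g z)) = fun z => mon y m z * f z + mon y m z * g z := by
    funext z; ring
  rw [e, integral_add (hf m).1 (hg m).1]
  exact ⟨(hf m).1.add (hg m).1, add_nonneg (hf m).2 (hg m).2⟩

theorem Cl_zero {y : ι → Ω → ℝ} : Cl ν y (fun _ => 0) := by
  intro m
  simp

theorem Cl_sum {y : ι → Ω → ℝ} {κ : Type} (s : Finset κ) (f : κ → Ω → ℝ)
    (h : ∀ i ∈ s, Cl ν y (f i)) : Cl ν y (fun z => ∑ i ∈ s, f i z) := by
  classical
  induction s using Finset.induction_on with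
  | empty => simpa using Cl_zero
  | insert a s ha ih =>
    have e : (fun z => ∑ i ∈ insert a s, f i z) = fun z => f a z + ∑ i ∈ s, f i z := by
      funext z; rw [Finset.sum_insert ha]
    rw [e]
    exact Cl_add (h a (Finset.mem_insert_self a s))
      (ih fun i hi => h i (Finset.mem_insert_of_mem hi))

theorem Cl_smul {y : ι → Ω → ℝ} {f : Ω → ℝ} (hf : Cl ν y f) {c : ℝ} (hc : 0 ≤ c) :
    Cl ν y (fun z => c * f z) := by
  intro m
  have e : (fun z => mon y m z * (c * f z)) = fun z => c * (mon y m z * f z) := by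
    funext z; ring
  rw [e, integral_const_mul]
  exact ⟨(hf m).1.const_mul c, mul_nonneg hc (hf m).2⟩

theorem Cl_mul {y : ι → Ω → ℝ} {f : Ω → ℝ} (hf : Cl ν y f) (k : ι) :
    Cl ν y (fun z => y k z * f z) := by
  classical
  intro m
  have e : (fun z => mon y m z * (y k z * f z)) = fun z => mon y (m + Pi.single k 1) z * f z := by
    funext z
    have h1 : mon y (m + Pi.single k 1) z = mon y m z * y k z := by
      unfold mon
      have h2 : ∀ j, y j z ^ (m + Pi.single k 1 : ι → ℕ) j = y j z ^ m j * (if j = k then y j z else 1) := by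
        intro j
        rw [Pi.add_apply, pow_add]
        by_cases hj : j = k
        · subst hj; simp
        · simp [hj, Pi.single_eq_of_ne hj]
      rw [Finset.prod_congr rfl fun j _ => h2 j, Finset.prod_mul_distrib]
      simp
    rw [h1]; ring
  rw [e]
  exact hf _

end

theorem pf_EXQ : T_EXQ := by
  intro Ω _ ν ι _ y q hy hint hmon hq m
  classical
  have hone : Cl ν y (fun _ => (1 : ℝ)) := by
    intro m
    have e : (fun z => mon y m z * 1) = fun z => mon y m z := by
      funext z; ring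
    rw [e]
    refine ⟨?_, hmon m⟩
    refine Integrable.mono' (hint (∑ k, (m k : ℝ))) (mon_meas y hy m).aestronglyMeasurable ?_
    exact Filter.Eventually.of_forall fun z => mon_bd y m z
  set Q : Ω → ℝ := fun z => ∑ k, ∑ l, q k l * y k z * y l z with hQ
  have hQm : Measurable Q :=
    Finset.measurable_sum _ fun k _ => Finset.measurable_sum _ fun l _ =>
      ((measurable_const.mul (hy k)).mul (hy l))
  have hQf : ∀ f : Ω → ℝ, Cl ν y f → Cl ν y (fun z => Q z * f z) := by
    intro f hf
    have e : (fun z => Q z * f z) = fun z => ∑ k, ∑ l, q k l * (y k z * (y l z * f z)) := by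
      funext z
      simp only [hQ, Finset.sum_mul]
      exact Finset.sum_congr rfl fun k _ => Finset.sum_congr rfl fun l _ => by ring
    rw [e]
    exact Cl_sum _ _ fun k _ => Cl_sum _ _ fun l _ =>
      Cl_smul (Cl_mul (Cl_mul hf l) k) (hq k l)
  have hpow : ∀ j : ℕ, Cl ν y (fun z => Q z ^ j) := by
    intro j
    induction j with
    | zero => simpa using hone
    | succ j ih =>
      have := hQf _ ih
      simpa [pow_succ'] using this
  set C0 : ℝ := ∑ k, ∑ l, q k l with hC0
  have hQb : ∀ z, |Q z| ≤ C0 * ∑ k, y k z ^ 2 := by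
    intro z
    simp only [hQ, hC0, Finset.sum_mul]
    refine (Finset.abs_sum_le_sum_abs _ _).trans (Finset.sum_le_sum fun k _ => ?_)
    refine (Finset.abs_sum_le_sum_abs _ _).trans (Finset.sum_le_sum fun l _ => ?_)
    rw [mul_assoc, abs_mul, abs_of_nonneg (hq k l)]
    refine mul_le_mul_of_nonneg_left ?_ (hq k l)
    have h1 : y k z ^ 2 ≤ ∑ k, y k z ^ 2 :=
      Finset.single_le_sum (f := fun k => y k z ^ 2) (fun i _ => sq_nonneg _) (Finset.mem_univ k)
    have h2 : y l z ^ 2 ≤ ∑ k, y k z ^ 2 :=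
      Finset.single_le_sum (f := fun k => y k z ^ 2) (fun i _ => sq_nonneg _) (Finset.mem_univ l)
    rw [abs_mul]
    nlinarith [sq_nonneg (|y k z| - |y l z|), sq_abs (y k z), sq_abs (y l z)]
  have hlim : Tendsto (fun N : ℕ => ∫ z, mon y m z * ∑ j ∈ Finset.range N, Q z ^ j / (j.factorial : ℝ) ∂ν)
      atTop (𝓝 (∫ z, mon y m z * Real.exp (Q z) ∂ν)) := by
    refine tendsto_integral_of_dominated_convergence
      (fun z => Real.exp (((∑ k, (m k : ℝ)) + C0) * ∑ k, y k z ^ 2)) ?_ (hint _) ?_ ?_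
    · intro N
      refine ((mon_meas y hy m).mul ?_).aestronglyMeasurable
      exact Finset.measurable_sum _ fun j _ => (hQm.pow_const j).div_const _
    · intro N
      refine Filter.Eventually.of_forall fun z => ?_
      rw [Real.norm_eq_abs, abs_mul, add_mul, Real.exp_add]
      refine mul_le_mul (mon_bd y m z) ?_ (abs_nonneg _) (Real.exp_nonneg _)
      refine (Finset.abs_sum_le_sum_abs _ _).trans ?_
      have h1 : ∀ j ∈ Finset.range N, |Q z ^ j / (j.factorial : ℝ)| = |Q z| ^ j / (j.factorial : ℝ) := by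
        intro j _
        rw [abs_div, abs_pow, Nat.abs_cast]
      rw [Finset.sum_congr rfl h1]
      refine (Real.sum_le_exp_of_nonneg (abs_nonneg _) N).trans ?_
      exact Real.exp_le_exp.2 (hQb z)
    · refine Filter.Eventually.of_forall fun z => ?_
      refine Tendsto.const_mul _ ?_
      have h1 := NormedSpace.expSeries_div_hasSum_exp (Q z)
      rw [← Real.exp_eq_exp_ℝ] at h1
      exact h1.tendsto_sum_nat
  have hnn : ∀ N : ℕ, 0 ≤ ∫ z, mon y m z * ∑ j ∈ Finset.range N, Q z ^ j / (j.factorial : ℝ) ∂ν := by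
    intro N
    have h1 : Cl ν y (fun z => ∑ j ∈ Finset.range N, Q z ^ j / (j.factorial : ℝ)) := by
      refine Cl_sum _ _ fun j _ => ?_
      have e : (fun z => Q z ^ j / (j.factorial : ℝ)) = fun z => (1 / (j.factorial : ℝ)) * Q z ^ j := by
        funext z; ring
      rw [e]
      exact Cl_smul (hpow j) (by positivity)
    exact (h1 m).2
  exact ge_of_tendsto' hlim hnn

end Pool.Agent.H67.LD
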