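import Pool.Agent.H80.LD.Targets

/-!
MP_47c37b_mp: module MAJ (board ldp_modules): Schwartz majorants.
-/

set_option autoImplicit false

open MeasureTheory Filter Topology
open scoped ContDiff SchwartzMap

open Pool.Agent.H80.LD

namespace Pool.Agent.H67.LD

section
variable {E : Type} [NormedAddCommGroup E] [InnerProductSpace ℝ E] [FiniteDimensional ℝ E]

/-- the basic function -/
theorem exists_bump : ∃ g : 𝓢(E, ℝ), (∀ x, 0 ≤ g x) ∧ ∀ x, ‖x‖ ≤ 1 → g x = 1 := by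
  let χ : ContDiffBump (0 : E) := ⟨1, 2, by norm_num, by norm_num⟩
  have h1 : HasCompactSupport (χ : E → ℝ) := χ.hasCompactSupport
  have h2 : ContDiff ℝ ∞ (χ : E → ℝ) := χ.contDiff
  refine ⟨h1.toSchwartzMap h2, fun x => ?_, fun x hx => ?_⟩
  · show 0 ≤ χ x
    exact χ.nonneg
  · show χ x = 1
    refine χ.one_of_mem_closedBall ?_
    rw [Metric.mem_closedBall, dist_zero_right]
    exact hx

theorem scale_bd (g : 𝓢(E, ℝ)) (c : ℝ) (hc : 0 < c) (hc1 : c ≤ 1) (N n : ℕ) (x : E) :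
    ‖x‖ ^ N * ‖iteratedFDeriv ℝ n (fun x => g (c • x)) x‖ ≤
      (c⁻¹) ^ N * SchwartzMap.seminorm ℝ N n g := by
  have h1 : (fun x => g (c • x)) = (g : E → ℝ) ∘ (c • ContinuousLinearMap.id ℝ E) := by
    funext x; simp
  have hg : ContDiff ℝ ∞ (g : E → ℝ) := g.smooth'
  rw [h1, (c • ContinuousLinearMap.id ℝ E).iteratedFDeriv_comp_right hg x (mod_cast le_top)]
  have h2 : ‖(iteratedFDeriv ℝ n g ((c • ContinuousLinearMap.id ℝ E) x)).compContinuousLinearMap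
      fun _ => (c • ContinuousLinearMap.id ℝ E)‖ ≤ ‖iteratedFDeriv ℝ n g (c • x)‖ := by
    refine (ContinuousMultilinearMap.norm_compContinuousLinearMap_le _ _).trans ?_
    have h3 : ‖c • ContinuousLinearMap.id ℝ E‖ ≤ 1 := by
      rw [norm_smul, Real.norm_of_nonneg hc.le]
      have := ContinuousLinearMap.norm_id_le (𝕜 := ℝ) (E := E)
      nlinarith [norm_nonneg (ContinuousLinearMap.id ℝ E)]
    have h4 : ∏ _i : Fin n, ‖c • ContinuousLinearMap.id ℝ E‖ ≤ 1 :=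
      Finset.prod_le_one (fun _ _ => norm_nonneg _) fun _ _ => h3
    have h5 : (c • ContinuousLinearMap.id ℝ E) x = c • x := by simp
    rw [h5]
    exact mul_le_of_le_one_right (norm_nonneg _) h4
  have h6 : ‖x‖ ^ N = (c⁻¹) ^ N * ‖c • x‖ ^ N := by
    rw [norm_smul, Real.norm_of_nonneg hc.le, ← mul_pow, ← mul_assoc, inv_mul_cancel₀ hc.ne',
      one_mul]
  calc _ ≤ ‖x‖ ^ N * ‖iteratedFDeriv ℝ n g (c • x)‖ :=
        mul_le_mul_of_nonneg_left h2 (by positivity)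
    _ = (c⁻¹) ^ N * (‖c • x‖ ^ N * ‖iteratedFDeriv ℝ n g (c • x)‖) := by rw [h6]; ring
    _ ≤ _ := mul_le_mul_of_nonneg_left (SchwartzMap.le_seminorm ℝ N n g (c • x)) (by positivity)

/-- sums of dilated functions -/
theorem exists_sum (g : 𝓢(E, ℝ)) (a : ℕ → ℝ) (ha : ∀ k, 0 ≤ a k)
    (hd : ∀ N : ℕ, ∃ C : ℝ, ∀ k, a k * (2 ^ k) ^ N ≤ C) :
    ∃ h : 𝓢(E, ℝ), ∀ x, HasSum (fun k => a k * g (((2 : ℝ) ^ (k + 1))⁻¹ • x)) (h x) := by
  have hgeo : Summable (fun k : ℕ => (1 / 2 : ℝ) ^ k) := summable_geometric_two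
  have hsum : ∀ N : ℕ, ∃ C : ℝ, 0 ≤ C ∧ ∀ k, a k * ((2 : ℝ) ^ (k + 1)) ^ N ≤ C * (1 / 2) ^ k := by
    intro N
    obtain ⟨C, hC⟩ := hd (N + 1)
    have hC0 : 0 ≤ C := le_trans (mul_nonneg (ha 0) (by positivity)) (hC 0)
    refine ⟨2 ^ N * C, by positivity, fun k => ?_⟩
    have h1 : a k * ((2 : ℝ) ^ (k + 1)) ^ N = 2 ^ N * (a k * (2 ^ k) ^ (N + 1)) * (1 / 2) ^ k := by
      have h2 : ((2 : ℝ) ^ (k + 1)) ^ N = 2 ^ N * ((2 ^ k) ^ (N + 1) * (1 / 2) ^ k) := by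
        have h3 : ((2 : ℝ) ^ k) ^ (N + 1) * (1 / 2) ^ k = (2 ^ k) ^ N := by
          rw [pow_succ, mul_assoc, ← mul_pow]; norm_num
        rw [h3, ← mul_pow]; ring
      rw [h2]; ring
    rw [h1]
    exact mul_le_mul_of_nonneg_right (mul_le_mul_of_nonneg_left (hC k) (by positivity))
      (by positivity)
  set F : ℕ → E → ℝ := fun k x => a k * g (((2 : ℝ) ^ (k + 1))⁻¹ • x) with hF
  have hc : ∀ k : ℕ, 0 < ((2 : ℝ) ^ (k + 1))⁻¹ ∧ ((2 : ℝ) ^ (k + 1))⁻¹ ≤ 1 := fun k =>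
    ⟨by positivity, inv_le_one_of_one_le₀ (one_le_pow₀ (by norm_num))⟩
  have hsm0 : ∀ k, ContDiff ℝ ∞ (fun x : E => g (((2 : ℝ) ^ (k + 1))⁻¹ • x)) := fun k =>
    g.smooth'.comp (contDiff_const_smul _)
  have hsm : ∀ k, ContDiff ℝ ∞ (F k) := fun k => contDiff_const.mul (hsm0 k)
  have hder : ∀ k n x, iteratedFDeriv ℝ n (F k) x =
      a k • iteratedFDeriv ℝ n (fun x => g (((2 : ℝ) ^ (k + 1))⁻¹ • x)) x := by
    intro k n x
    have h1 : F k = a k • (fun x => g (((2 : ℝ) ^ (k + 1))⁻¹ • x)) := by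
      funext x; simp [hF]
    rw [h1, iteratedFDeriv_const_smul_apply]
    exact ((hsm0 k).of_le (mod_cast le_top)).contDiffAt
  have hbd : ∀ N n k x, ‖x‖ ^ N * ‖iteratedFDeriv ℝ n (F k) x‖ ≤
      a k * ((2 : ℝ) ^ (k + 1)) ^ N * SchwartzMap.seminorm ℝ N n g := by
    intro N n k x
    rw [hder, norm_smul, Real.norm_of_nonneg (ha k)]
    have h1 := scale_bd g _ (hc k).1 (hc k).2 N n x
    rw [inv_inv] at h1
    have h2 := mul_le_mul_of_nonneg_left h1 (ha k)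
    linarith
  have hbd0 : ∀ n k x, ‖iteratedFDeriv ℝ n (F k) x‖ ≤ a k * SchwartzMap.seminorm ℝ 0 n g := by
    intro n k x
    have := hbd 0 n k x
    simpa using this
  have hsa : Summable a := by
    obtain ⟨C, hC0, hC⟩ := hsum 0
    refine Summable.of_nonneg_of_le ha (fun k => ?_) (hgeo.mul_left C)
    have := hC k
    simpa using this
  have hCD : ContDiff ℝ ∞ (fun x => ∑' k, F k x) := by
    refine contDiff_tsum (v := fun n k => a k * SchwartzMap.seminorm ℝ 0 n g) hsm ?_ ?_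
    · intro n _
      exact hsa.mul_right _
    · intro n k x _
      exact hbd0 n k x
  have hit : ∀ n : ℕ, (iteratedFDeriv ℝ n fun x => ∑' k, F k x) =
      fun x => ∑' k, iteratedFDeriv ℝ n (F k) x := by
    intro n
    refine iteratedFDeriv_tsum (v := fun n k => a k * SchwartzMap.seminorm ℝ 0 n g) hsm ?_ ?_
      le_top
    · intro n _
      exact hsa.mul_right _
    · intro n k x _
      exact hbd0 n k x
  refine ⟨⟨fun x => ∑' k, F k x, hCD, ?_⟩, ?_⟩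
  · intro N n
    obtain ⟨C, hC0, hC⟩ := hsum N
    refine ⟨C * SchwartzMap.seminorm ℝ N n g * 2, fun x => ?_⟩
    rw [hit n]
    have h1 : ‖x‖ ^ N * ‖∑' k, iteratedFDeriv ℝ n (F k) x‖ =
        ‖∑' k, (‖x‖ ^ N) • iteratedFDeriv ℝ n (F k) x‖ := by
      rw [tsum_const_smul'', norm_smul, Real.norm_of_nonneg (by positivity)]
    have h2 : HasSum (fun k : ℕ => C * SchwartzMap.seminorm ℝ N n g * (1 / 2 : ℝ) ^ k)
        (C * SchwartzMap.seminorm ℝ N n g * 2) := hasSum_geometric_two.mul_left _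
    show ‖x‖ ^ N * ‖∑' k, iteratedFDeriv ℝ n (F k) x‖ ≤ _
    rw [h1]
    refine tsum_of_norm_bounded h2 fun k => ?_
    rw [norm_smul, Real.norm_of_nonneg (by positivity)]
    refine (hbd N n k x).trans ?_
    have h3 := mul_le_mul_of_nonneg_right (hC k) (apply_nonneg (SchwartzMap.seminorm ℝ N n) g)
    linarith
  · intro x
    show HasSum (fun k => F k x) (∑' k, F k x)
    refine Summable.hasSum ?_
    refine Summable.of_norm_bounded (hsa.mul_right (SchwartzMap.seminorm ℝ 0 0 g)) fun k => ?_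
    have := hbd0 0 k x
    rwa [norm_iteratedFDeriv_zero] at this

theorem majorant (f : 𝓢(E, ℝ)) : ∃ h : 𝓢(E, ℝ), ∀ x, |f x| ≤ h x := by
  obtain ⟨g, hg0, hg1⟩ := exists_bump (E := E)
  have hf : ∀ N : ℕ, ∀ y, ‖y‖ ^ N * |f y| ≤ SchwartzMap.seminorm ℝ N 0 f := by
    intro N y
    have := SchwartzMap.le_seminorm ℝ N 0 f y
    rwa [norm_iteratedFDeriv_zero, Real.norm_eq_abs] at this
  set A : ℕ → Set ℝ := fun k => {t | ∃ y : E, 2 ^ k ≤ ‖y‖ ∧ t = |f y|} with hA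
  set a : ℕ → ℝ := fun k => sSup (A k) with ha
  have ha0 : ∀ k, 0 ≤ a k := fun k => Real.sSup_nonneg (by
    rintro _ ⟨y, _, rfl⟩; exact abs_nonneg _)
  have hle : ∀ N k : ℕ, ∀ t ∈ A k, t ≤ SchwartzMap.seminorm ℝ N 0 f / (2 ^ k) ^ N := by
    rintro N k _ ⟨y, hy, rfl⟩
    rw [le_div_iff₀ (by positivity)]
    have h1 : ((2 : ℝ) ^ k) ^ N ≤ ‖y‖ ^ N := pow_le_pow_left₀ (by positivity) hy N
    have h2 := mul_le_mul_of_nonneg_left h1 (abs_nonneg (f y))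
    have h3 := hf N y
    linarith
  have hbdd : ∀ k, BddAbove (A k) := fun k => ⟨_, hle 0 k⟩
  obtain ⟨h, hh⟩ := exists_sum g a ha0 (fun N => ⟨SchwartzMap.seminorm ℝ N 0 f, fun k => by
    have h1 : a k ≤ SchwartzMap.seminorm ℝ N 0 f / (2 ^ k) ^ N :=
      Real.sSup_le (hle N k) (by positivity)
    rwa [le_div_iff₀ (by positivity)] at h1⟩)
  have hnn : ∀ k x, 0 ≤ a k * g (((2 : ℝ) ^ (k + 1))⁻¹ • x) := fun k x =>
    mul_nonneg (ha0 k) (hg0 _)
  refine ⟨(SchwartzMap.seminorm ℝ 0 0 f) • g + h, fun x => ?_⟩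
  have hx0 : 0 ≤ h x := (hh x).nonneg fun k => hnn k x
  have hS0 : 0 ≤ SchwartzMap.seminorm ℝ 0 0 f := apply_nonneg _ f
  show |f x| ≤ SchwartzMap.seminorm ℝ 0 0 f * g x + h x
  rcases le_or_gt ‖x‖ 1 with hx | hx
  · rw [hg1 x hx]
    have := hf 0 x
    rw [pow_zero, one_mul] at this
    linarith
  · obtain ⟨k, hk1, hk2⟩ := exists_nat_pow_near hx.le (by norm_num : (1 : ℝ) < 2)
    have h1 : |f x| ≤ a k := le_csSup (hbdd k) ⟨x, hk1, rfl⟩
    have h2 : g (((2 : ℝ) ^ (k + 1))⁻¹ • x) = 1 := by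
      apply hg1
      rw [norm_smul, norm_inv, norm_pow, Real.norm_of_nonneg (by norm_num : (0 : ℝ) ≤ 2)]
      rw [inv_mul_le_iff₀ (by positivity), mul_one]
      exact hk2.le
    have h3 := le_hasSum (hh x) k fun j _ => hnn j x
    rw [h2, mul_one] at h3
    have h4 := mul_nonneg hS0 (hg0 x)
    linarith

end

theorem pf_MAJ : T_MAJ := fun _ f => majorant f

end Pool.Agent.H67.LD
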