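import Pool.Agent.H80.LD.Targets

/-!
MP_47c37b_mp: module GAF (board ldp_modules): correlation inequalities for the field of a finite
system.
-/

set_option autoImplicit false

open MeasureTheory Filter Topology

open Pool.Agent.H80.LD
open Pool.Agent.H43.DPC (V S SD moment trans rot IsMAO Diag)

namespace Pool.Agent.H67.LD

variable {d : ℕ} {e : V d}

theorem mono_bd {N : ℕ} (m : Fin N → ℕ) (φ : Fin N → ℝ) :
    |∏ x, φ x ^ m x| ≤ (1 + ∑ x, (m x : ℝ)) * Real.exp ((1 + ∑ x, (m x : ℝ)) * ∑ x, φ x ^ 2) := by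
  have h0 : 0 ≤ ∑ x, (m x : ℝ) := Finset.sum_nonneg fun _ _ => Nat.cast_nonneg _
  have hS : 0 ≤ ∑ x, φ x ^ 2 := Finset.sum_nonneg fun _ _ => sq_nonneg _
  have h1 : |∏ x, φ x ^ m x| ≤ Real.exp ((∑ x, (m x : ℝ)) * ∑ x, φ x ^ 2) := by
    rw [Finset.abs_prod, Finset.sum_mul, Real.exp_sum]
    refine Finset.prod_le_prod (fun k _ => abs_nonneg _) fun k _ => ?_
    rw [abs_pow, Real.exp_nat_mul]
    refine pow_le_pow_left₀ (abs_nonneg _) ?_ _
    have h1 : φ k ^ 2 ≤ ∑ k, φ k ^ 2 :=
      Finset.single_le_sum (f := fun k => φ k ^ 2) (fun i _ => sq_nonneg _) (Finset.mem_univ k)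
    have h2 : |φ k| ≤ φ k ^ 2 + 1 := by
      rw [← sq_abs]
      nlinarith [sq_nonneg (|φ k| - 1), abs_nonneg (φ k)]
    have h3 := Real.add_one_le_exp (∑ k, φ k ^ 2)
    linarith
  refine h1.trans ?_
  have h2 : Real.exp ((∑ x, (m x : ℝ)) * ∑ x, φ x ^ 2) ≤
      Real.exp ((1 + ∑ x, (m x : ℝ)) * ∑ x, φ x ^ 2) := by
    apply Real.exp_le_exp.2
    nlinarith
  have h3 := Real.exp_pos ((1 + ∑ x, (m x : ℝ)) * ∑ x, φ x ^ 2)
  nlinarith

/-- multiplicities -/
noncomputable def mul {N n : ℕ} (s : Fin n → Fin N) (x : Fin N) : ℕ :=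
  (Finset.univ.filter fun i => s i = x).card

theorem mul_sum {N n : ℕ} (s : Fin n → Fin N) : ∑ x, mul s x = n := by
  unfold mul
  rw [← Finset.card_eq_sum_card_fiberwise (s := (Finset.univ : Finset (Fin n))) (t := Finset.univ)
    (f := s) (fun i _ => Finset.mem_coe.2 (Finset.mem_univ _))]
  simp

theorem prod_mul {N n : ℕ} (s : Fin n → Fin N) (φ : Fin N → ℝ) :
    ∏ i, φ (s i) = ∏ x, φ x ^ mul s x := by
  rw [← Finset.prod_fiberwise' (s := (Finset.univ : Finset (Fin n))) (g := s) (f := φ)]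
  refine Finset.prod_congr rfl fun x _ => ?_
  rw [Finset.prod_const]
  rfl

theorem mf_ofFn (hLAW : T_LAW) (A : Sys d e) (n : ℕ) (f : Fin n → S d) :
    mf A (List.ofFn f) = ∑ s : Fin n → Fin A.N, (∏ i, (A.w (s i) * f i (A.pos (s i)))) *
      ∫ φ, ∏ x, φ x ^ mul s x ∂A.law := by
  have hI := (hLAW d e A).2.2.2.2
  have hint : ∀ m : Fin A.N → ℕ, Integrable (fun φ : Fin A.N → ℝ => ∏ x, φ x ^ m x) A.law := by
    intro m
    refine hI _ (1 + ∑ x, (m x : ℝ)) (by fun_prop) fun φ => mono_bd m φ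
  unfold mf
  have h1 : ∀ φ : Fin A.N → ℝ, ((List.ofFn f).map (fun f => A.fld f φ)).prod =
      ∑ s : Fin n → Fin A.N, (∏ i, (A.w (s i) * f i (A.pos (s i)))) * ∏ x, φ x ^ mul s x := by
    intro φ
    rw [List.map_ofFn, List.prod_ofFn]
    simp only [Function.comp_apply, Sys.fld]
    rw [Finset.prod_univ_sum, Fintype.piFinset_univ]
    refine Finset.sum_congr rfl fun s _ => ?_
    rw [← prod_mul, ← Finset.prod_mul_distrib]
    exact Finset.prod_congr rfl fun i _ => by ring
  rw [integral_congr_ae (Filter.Eventually.of_forall h1), integral_finsetSum]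
  · refine Finset.sum_congr rfl fun s _ => ?_
    rw [integral_const_mul]
  · intro s _
    exact (hint _).const_mul _

theorem pf_GAF (hLAW : T_LAW) (hGKS : T_GKS) (hST4 : T_ST4) (hCVG : T_CVG) : T_GAF := by
  have hpos : ∀ (d : ℕ) (e : V d) (A : Sys d e) (l : List (S d)), (∀ f ∈ l, ∀ x, 0 ≤ f x) →
      0 ≤ mf A l := by
    intro d e A l hl
    rw [← List.ofFn_get l, mf_ofFn hLAW]
    refine Finset.sum_nonneg fun s _ => mul_nonneg ?_ (hGKS d e A _).1
    refine Finset.prod_nonneg fun i _ => mul_nonneg (A.w_nonneg _) (hl _ (List.get_mem _ _) _)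
  have hodd : ∀ (d : ℕ) (e : V d) (A : Sys d e) (l : List (S d)), Odd l.length → mf A l = 0 := by
    intro d e A l hl
    rw [← List.ofFn_get l, mf_ofFn hLAW]
    refine Finset.sum_eq_zero fun s _ => ?_
    rw [(hGKS d e A _).2 (by rw [mul_sum]; exact hl), mul_zero]
  refine ⟨hpos, ?_, hodd, ?_⟩
  · intro d e A n f h hfh
    rw [mf_ofFn hLAW, mf_ofFn hLAW]
    refine (Finset.abs_sum_le_sum_abs _ _).trans (Finset.sum_le_sum fun s _ => ?_)
    rw [abs_mul, abs_of_nonneg (hGKS d e A _).1, Finset.abs_prod]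
    refine mul_le_mul_of_nonneg_right ?_ (hGKS d e A _).1
    refine Finset.prod_le_prod (fun i _ => abs_nonneg _) fun i _ => ?_
    rw [abs_mul, abs_of_nonneg (A.w_nonneg _)]
    exact mul_le_mul_of_nonneg_left (hfh i _) (A.w_nonneg _)
  · intro d e A n h hh
    have hprob := (hLAW d e A).2.2.1
    set c : Fin n → Fin A.N → ℝ := fun i x => A.w x * h i (A.pos x) with hc
    set a : Finset (Fin n) → ℝ := fun T => ∫ φ, ∏ i ∈ T, ∑ x, c i x * φ x ∂A.law with ha
    have hfld : ∀ i φ, A.fld (h i) φ = ∑ x, c i x * φ x := by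
      intro i φ
      unfold Sys.fld
      exact Finset.sum_congr rfl fun x _ => by simp only [hc]; ring
    have haT : ∀ T, a T = mf A (T.toList.map h) := by
      intro T
      simp only [ha, mf]
      refine integral_congr_ae (Filter.Eventually.of_forall fun φ => ?_)
      simp only
      rw [List.map_map, ← Finset.prod_map_toList]
      congr 1
      refine List.map_congr_left fun i _ => ?_
      rw [Function.comp_apply, hfld]
    have h1 := hST4 d e A n c (fun i x => mul_nonneg (A.w_nonneg _) (hh i _)) a (fun T => rfl)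
    have h2 := hCVG n (fun i j => mf A [h i, h j]) a (fun T => by
        rw [haT]
        refine hpos d e A _ ?_
        intro f hf
        obtain ⟨i, _, rfl⟩ := List.mem_map.1 hf
        exact hh i)
      (by simp only [ha, Finset.prod_empty, integral_const, smul_eq_mul, mul_one]; simp)
      (fun i j hij => by
        simp only [ha, mf]
        refine integral_congr_ae (Filter.Eventually.of_forall fun φ => ?_)
        simp only
        rw [Finset.prod_pair hij, ← hfld, ← hfld]
        simp)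
      (fun T hT => by
        rw [haT]
        apply hodd
        rw [List.length_map, Finset.length_toList]
        exact hT) h1 Finset.univ
    refine le_trans (le_of_eq ?_) h2
    simp only [ha, mf]
    refine integral_congr_ae (Filter.Eventually.of_forall fun φ => ?_)
    simp only
    rw [List.map_ofFn, List.prod_ofFn]
    refine Finset.prod_congr rfl fun i _ => ?_
    rw [Function.comp_apply, hfld]

end Pool.Agent.H67.LD
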